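import Pool.Agent.TH337.CN.Local

/-!
MP_b5b7b7_an: strong unique continuation for harmonic functions at the vertex of a cone.
-/

namespace Pool.Agent.Results.MP_b5b7b7_an.ConeVertex

open MeasureTheory Metric Asymptotics Topology
open scoped Gradient RealInnerProductSpace

/-- A cone with vertex `0`: a Borel measure `ν` on `ℝ^n`, finite on compact sets and homogeneous of
degree `m` (`ν(aA) = a^m ν(A)`), and a field `S` of linear subspaces (the tangent planes), whose
orthogonal projections depend measurably on `x`, invariant under dilations and containing the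
radial direction (almost everywhere). No rectifiability, integrality or stationarity. -/
structure IsCone {n : ℕ} (ν : Measure (EuclideanSpace ℝ (Fin n)))
    (S : EuclideanSpace ℝ (Fin n) → Submodule ℝ (EuclideanSpace ℝ (Fin n))) (m : ℝ) : Prop where
  finite : IsFiniteMeasureOnCompacts ν
  homogeneous : ∀ a : ℝ, 0 < a →
    Measure.map (fun x => a • x) ν = ENNReal.ofReal (a ^ (-m)) • ν
  measurable : AEStronglyMeasurable (fun x => (S x).starProjection) ν
  dilation : ∀ a : ℝ, 0 < a → ∀ᵐ x ∂ν, S (a • x) = S x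
  radial : ∀ᵐ x ∂ν, x ∈ S x

/-- `(μ, T)` coincides with a cone with vertex `x₀` in the ball of radius `R` about `x₀`. -/
def IsConicalNear {n : ℕ} (μ : Measure (EuclideanSpace ℝ (Fin n)))
    (T : EuclideanSpace ℝ (Fin n) → Submodule ℝ (EuclideanSpace ℝ (Fin n)))
    (x₀ : EuclideanSpace ℝ (Fin n)) (R : ℝ) : Prop :=
  ∃ (m : ℝ) (ν : Measure (EuclideanSpace ℝ (Fin n)))
    (S : EuclideanSpace ℝ (Fin n) → Submodule ℝ (EuclideanSpace ℝ (Fin n))),
    IsCone ν S m ∧
    μ.restrict (ball x₀ R) = (Measure.map (fun y => x₀ + y) ν).restrict (ball x₀ R) ∧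
    ∀ᵐ x ∂(μ.restrict (ball x₀ R)), T x = S (x - x₀)

/-- The tangential gradient: the orthogonal projection of the gradient onto `T x`. -/
noncomputable def tgrad {n : ℕ}
    (T : EuclideanSpace ℝ (Fin n) → Submodule ℝ (EuclideanSpace ℝ (Fin n)))
    (φ : EuclideanSpace ℝ (Fin n) → ℝ) (x : EuclideanSpace ℝ (Fin n)) :
    EuclideanSpace ℝ (Fin n) :=
  (T x).starProjection (∇ φ x)

/-- `h` is harmonic on `(μ, T)` in `U`: `∫ ∇_T h · ∇_T φ dμ = 0` for all `φ ∈ C¹_c(U)`. -/
def IsHarmonic {n : ℕ} (μ : Measure (EuclideanSpace ℝ (Fin n)))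
    (T : EuclideanSpace ℝ (Fin n) → Submodule ℝ (EuclideanSpace ℝ (Fin n)))
    (U : Set (EuclideanSpace ℝ (Fin n))) (h : EuclideanSpace ℝ (Fin n) → ℝ) : Prop :=
  ∀ φ : EuclideanSpace ℝ (Fin n) → ℝ, ContDiff ℝ 1 φ → HasCompactSupport φ → tsupport φ ⊆ U →
    ∫ x, ⟪tgrad T h x, tgrad T φ x⟫ ∂μ = 0

/-- The weighted height `H(r) = ∫ (r² - |x - x₀|²)₊ h² dμ`. -/
noncomputable def height {n : ℕ} (μ : Measure (EuclideanSpace ℝ (Fin n)))
    (h : EuclideanSpace ℝ (Fin n) → ℝ) (x₀ : EuclideanSpace ℝ (Fin n)) (r : ℝ) : ℝ :=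
  ∫ x, max (r ^ 2 - ‖x - x₀‖ ^ 2) 0 * h x ^ 2 ∂μ

theorem result {n : ℕ} {U : Set (EuclideanSpace ℝ (Fin n))}
    {μ : Measure (EuclideanSpace ℝ (Fin n))}
    {T : EuclideanSpace ℝ (Fin n) → Submodule ℝ (EuclideanSpace ℝ (Fin n))}
    {x₀ : EuclideanSpace ℝ (Fin n)} {R : ℝ} (hR : 0 < R) (hU : ball x₀ R ⊆ U)
    (hcon : IsConicalNear μ T x₀ R)
    {h : EuclideanSpace ℝ (Fin n) → ℝ} (hC : ContDiffOn ℝ 1 h U) (hh : IsHarmonic μ T U h) :
    (∀ a b t : ℝ, 0 < b → b ≤ t → t ≤ a → a < R → a * b = t ^ 2 →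
      height μ h x₀ t ^ 2 ≤ height μ h x₀ a * height μ h x₀ b) ∧
    ((∀ N : ℕ, (fun r : ℝ => ∫ x in ball x₀ r, h x ^ 2 ∂μ) =o[𝓝[>] 0] fun r => r ^ N) →
      ∀ x ∈ μ.support ∩ ball x₀ R, h x = 0) := by
  obtain ⟨m, ν, S, hc, hμ, hT⟩ := hcon
  have := hc.finite
  have hcone : Pool.Agent.TH337.CN.Conical ν (fun x => (S x).starProjection) m :=
    { hom := hc.homogeneous
      meas := hc.measurable
      symm := fun x v w => Submodule.inner_starProjection_left_eq_right (S x) v w
      idem := fun x v => by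
        have := (S x).isIdempotentElem_starProjection
        exact congrArg (fun f => f v) this
      le := fun x v => (S x).norm_starProjection_apply_le v
      dil := fun a ha => (hc.dilation a ha).mono fun x hx => by simp only [hx]
      rad := hc.radial.mono fun x hx => Submodule.starProjection_eq_self_iff.mpr hx }
  have hP : ∀ᵐ x ∂(μ.restrict (ball x₀ R)),
      (fun x => (T x).starProjection) x = (fun x => (S x).starProjection) (x - x₀) :=
    hT.mono fun x hx => by simp only [hx]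
  have hharm := Pool.Agent.TH337.CN.local_harm (P := fun x => (T x).starProjection)
    (P' := fun x => (S x).starProjection) hU hμ hP hh
  have hcont := Pool.Agent.TH337.CN.local_cont hU hC
  refine ⟨fun a b t hb hbt hta haR hab => ?_, fun hv x hx => ?_⟩
  · have h1 := Pool.Agent.TH337.CN.three_balls hcone hharm hcont hb (hb.trans_le hbt) hta haR hab
    rwa [Pool.Agent.TH337.CN.local_height hμ (hb.le.trans hbt) (hta.trans haR.le),
      Pool.Agent.TH337.CN.local_height hμ (hb.le.trans (hbt.trans hta)) haR.le,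
      Pool.Agent.TH337.CN.local_height hμ hb.le ((hbt.trans hta).trans haR.le)] at h1
  · have h2 := Pool.Agent.TH337.CN.suc hcone hharm hcont
      (Pool.Agent.TH337.CN.local_vanish hμ hR hv)
      (Pool.Agent.TH337.CN.local_support hμ hx.1 hx.2)
      (by
        have h3 := hx.2
        rw [mem_ball, dist_eq_norm] at h3
        rwa [mem_ball_zero_iff])
    simpa using h2

end Pool.Agent.Results.MP_b5b7b7_an.ConeVertex
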